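import Pool.Agent.H85.TU.Targets

/-!
# Row INF: the universe is countable and infinite
-/

set_option autoImplicit false

open Set

namespace Pool.Agent.H66.TUM

open Pool.Agent.H85.TU

theorem code_inj : ∀ p q : Q, code p = code q → p = q := by
  intro p
  induction p with
  | g =>
    intro q h
    cases q with
    | g => rfl
    | e i => simp only [code] at h; omega
    | f i => simp only [code] at h; omega
    | new a b v => simp only [code] at h; omega
  | e i =>
    intro q h
    cases q with
    | g => simp only [code] at h; omega
    | e j =>
      simp only [code] at h
      have : i = j := by omega
      rw [this]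
    | f j => simp only [code] at h; omega
    | new a b v => simp only [code] at h; omega
  | f i =>
    intro q h
    cases q with
    | g => simp only [code] at h; omega
    | e j => simp only [code] at h; omega
    | f j =>
      simp only [code] at h
      have : i = j := by omega
      rw [this]
    | new a b v => simp only [code] at h; omega
  | new a b v iha ihb =>
    intro q h
    cases q with
    | g => simp only [code] at h; omega
    | e j => simp only [code] at h; omega
    | f j => simp only [code] at h; omega
    | new a' b' v' =>
      simp only [code] at h
      have h1 : Nat.pair (Nat.pair (code a) (code b)) v =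
          Nat.pair (Nat.pair (code a') (code b')) v' := by omega
      obtain ⟨h2, h3⟩ := Nat.pair_eq_pair.1 h1
      obtain ⟨h4, h5⟩ := Nat.pair_eq_pair.1 h2
      rw [iha a' h4, ihb b' h5, h3]

instance : Countable Q := ⟨⟨code, fun p q h => code_inj p q h⟩⟩

theorem pf_INF : T_INF := by
  intro ι ar D x T
  have h1 : Countable (Pt T) := by
    unfold Pt
    infer_instance
  have h2 : Infinite (Pt T) := by
    refine Infinite.of_injective (eP T) ?_
    intro i j h
    have h3 : (eP T i).1 = (eP T j).1 := by rw [h]
    simp only [eP, Sum.inl.injEq, Q.e.injEq] at h3
    exact h3
  exact nonempty_equiv_of_countable

end Pool.Agent.H66.TUM
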