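import Pool.Agent.H85.TU.Targets

/-!
# Row LAB: the classes of twins can be numbered
-/

set_option autoImplicit false

open Set

namespace Pool.Agent.H66.TUM

open Pool.Agent.H85.TU

section

variable {ι : Type} {ar : ι → ℕ} {D : ι → Type}

theorem aut_mul {V : Type} {x : Str ar D V} {g h : Equiv.Perm V} (hg : Aut x g)
    (hh : Aut x h) : Aut x (g * h) := by
  intro i v
  have h1 : ((g * h : Equiv.Perm V) : V → V) ∘ v = g ∘ (h ∘ v) := by
    funext k
    rfl
  rw [h1, hg, hh]

theorem tw_refl (x : Str ar D ℕ) (a : ℕ) : Tw x a a := by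
  intro i v
  rw [Equiv.swap_self]
  rfl

theorem tw_symm {x : Str ar D ℕ} {a b : ℕ} (h : Tw x a b) : Tw x b a := by
  unfold Tw at h ⊢
  rw [Equiv.swap_comm]
  exact h

theorem tw_trans {x : Str ar D ℕ} {a b c : ℕ} (h : Tw x a b) (h' : Tw x b c) : Tw x a c := by
  by_cases hab : a = b
  · rw [hab]
    exact h'
  · by_cases hac : a = c
    · rw [hac]
      exact tw_refl x c
    · have h1 : Aut x (Equiv.swap b c * Equiv.swap a b * Equiv.swap b c) :=
        aut_mul (aut_mul h' h) h'
      rw [Equiv.swap_mul_swap_mul_swap hab hac] at h1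
      exact tw_symm h1

end

/-- the values of the counting function -/
theorem exists_count (p : ℕ → Prop) [DecidablePred p] : ∀ (m n : ℕ), n < Nat.count p m →
    ∃ b, b < m ∧ p b ∧ Nat.count p b = n := by
  intro m
  induction m with
  | zero =>
    intro n hn
    rw [Nat.count_zero] at hn
    exact absurd hn (Nat.not_lt_zero _)
  | succ m ih =>
    intro n hn
    rw [Nat.count_succ] at hn
    by_cases h : n < Nat.count p m
    · obtain ⟨b, hb, hb2⟩ := ih n h
      exact ⟨b, hb.trans (Nat.lt_succ_self m), hb2⟩
    · by_cases hp : p m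
      · rw [if_pos hp] at hn
        exact ⟨m, Nat.lt_succ_self m, hp, by omega⟩
      · rw [if_neg hp] at hn
        omega

theorem pf_LAB : T_LAB := by
  intro ι ar D x
  classical
  have heq : ∀ a b, Tw x a b → (fun c => Tw x a c) = fun c => Tw x b c := by
    intro a b h
    funext c
    exact propext ⟨fun h' => tw_trans (tw_symm h) h', fun h' => tw_trans h h'⟩
  have hcount : ∀ a b, Tw x a b → ∀ m, Nat.count (fun c => Tw x a c) m =
      Nat.count (fun c => Tw x b c) m := by
    intro a b h m
    congr 1
    exact heq a b h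
  refine ⟨fun a => Nat.count (fun c => Tw x a c) a, ?_, ?_⟩
  · have key : ∀ a b, a < b → Tw x a b →
        Nat.count (fun c => Tw x a c) a < Nat.count (fun c => Tw x b c) b := by
      intro a b hab h
      rw [← hcount a b h b]
      exact Nat.count_strict_mono (tw_refl x a) hab
    intro a b h hs
    by_contra hne
    rcases Nat.lt_or_gt_of_ne hne with h1 | h1
    · have := key a b h1 h
      simp only at hs
      omega
    · have := key b a h1 (tw_symm h)
      simp only at hs
      omega
  · intro a n hn
    obtain ⟨b, hb, hb2, hb3⟩ := exists_count (fun c => Tw x a c) a n hn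
    exact ⟨b, hb2, by rw [← hb3]; exact (hcount a b hb2 b).symm⟩

end Pool.Agent.H66.TUM
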